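import Pool.Agent.Helper73.LR.Stmts
import Pool.Agent.Helper51.HV.J

/-!
# Compactness (row CPT of project MP_a2630c_LR)
-/

open MeasureTheory Set Metric Real Filter Topology
open scoped RealInnerProductSpace ENNReal
open Pool.Agent.Helper16.Buoy (E cap IsEllipsoid Homothetic buoyancyBody)
open Pool.Agent.Helper73.HV (supp SBody)
open Pool.Agent.Helper73.LR

namespace Pool.Agent.Helper23.LR

variable {n : ℕ}

/-! ## Support functions -/

theorem bdd_supp {K : Set (E n)} (hK : IsCompact K) (u : E n) :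
    BddAbove ((fun x => (inner ℝ u x : ℝ)) '' K) :=
  (hK.image (by fun_prop)).bddAbove

theorem le_supp {K : Set (E n)} (hK : IsCompact K) (u : E n) {x : E n} (hx : x ∈ K) :
    inner ℝ u x ≤ supp K u :=
  le_csSup (bdd_supp hK u) ⟨x, hx, rfl⟩

theorem supp_le {K : Set (E n)} (hne : K.Nonempty) (u : E n) {a : ℝ}
    (h : ∀ x ∈ K, inner ℝ u x ≤ a) : supp K u ≤ a :=
  csSup_le (hne.image _) (by rintro _ ⟨x, hx, rfl⟩; exact h x hx)

/-- Convergence of convex bodies, in the form given by the selection theorem. -/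
def Cv (K : ℕ → Set (E n)) (L : Set (E n)) : Prop :=
  ∀ ε : ℝ, 0 < ε → ε < 1 → ∃ k0 : ℕ, ∀ k, k0 ≤ k →
    (fun x => (1 - ε) • x) '' L ⊆ K k ∧ K k ⊆ (fun x => (1 + ε) • x) '' L

theorem supp_up {K L : Set (E n)} (hKn : K.Nonempty) (hL : IsCompact L) {s : ℝ} (hs : 0 ≤ s)
    (h : K ⊆ (fun x => s • x) '' L) (u : E n) : supp K u ≤ s * supp L u := by
  refine supp_le hKn u ?_
  intro x hx
  obtain ⟨y, hy, rfl⟩ := h hx
  simp only [inner_smul_right]
  exact mul_le_mul_of_nonneg_left (le_supp hL u hy) hs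

theorem supp_lo {K L : Set (E n)} (hLn : L.Nonempty) (hK : IsCompact K) {s : ℝ} (hs : 0 < s)
    (h : (fun x => s • x) '' L ⊆ K) (u : E n) : s * supp L u ≤ supp K u := by
  have h1 : supp L u ≤ supp K u / s := by
    refine supp_le hLn u ?_
    intro x hx
    have h2 := le_supp hK u (h ⟨x, hx, rfl⟩)
    simp only [inner_smul_right] at h2
    rw [le_div_iff₀ hs]
    linarith
  rw [le_div_iff₀ hs] at h1
  linarith

theorem supp_nonneg {L : Set (E n)} (hL : IsCompact L) (h0 : (0 : E n) ∈ L) (u : E n) :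
    0 ≤ supp L u := by
  have := le_supp hL u h0
  rwa [inner_zero_right] at this

theorem cv_supp {K : ℕ → Set (E n)} {L : Set (E n)} (hK : ∀ k, CB (K k)) (hL : CB L)
    (h0 : (0 : E n) ∈ L) (hc : Cv K L) (u : E n) :
    Tendsto (fun k => supp (K k) u) atTop (𝓝 (supp L u)) := by
  rw [Metric.tendsto_atTop]
  intro δ hδ
  have hsn := supp_nonneg hL.comp h0 u
  set ε : ℝ := min (1 / 2) (δ / (2 * (supp L u + 1))) with hε
  have hε0 : 0 < ε := lt_min (by norm_num) (by positivity)
  have hε1 : ε < 1 := lt_of_le_of_lt (min_le_left _ _) (by norm_num)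
  obtain ⟨k0, hk0⟩ := hc ε hε0 hε1
  refine ⟨k0, fun k hk => ?_⟩
  obtain ⟨h1, h2⟩ := hk0 k hk
  have hKn : (K k).Nonempty := (hK k).int.mono interior_subset
  have h3 := supp_up hKn hL.comp (by linarith) h2 u
  have h4 := supp_lo ⟨0, h0⟩ (hK k).comp (by linarith) h1 u
  have h5 : ε * (supp L u + 1) ≤ δ / 2 := by
    have : ε ≤ δ / (2 * (supp L u + 1)) := min_le_right _ _
    calc ε * (supp L u + 1) ≤ δ / (2 * (supp L u + 1)) * (supp L u + 1) :=
          mul_le_mul_of_nonneg_right this (by linarith)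
      _ = δ / 2 := by field_simp
  have h6 : ε * supp L u ≤ δ / 2 := by nlinarith
  rw [Real.dist_eq, abs_lt]
  constructor <;> nlinarith

/-! ## Integrals -/

theorem int_diff {A B K : Set (E n)} (hA : IsCompact A) (hB : IsCompact B) (hK : IsCompact K)
    (hAK : A ⊆ K) (hKB : K ⊆ B) {f : E n → ℝ} (hf : Continuous f) {M : ℝ}
    (hM : ∀ x ∈ B, |f x| ≤ M) :
    |(∫ x in K, f x) - ∫ x in A, f x| ≤ M * (vol B - vol A) := by
  have hAm := hA.measurableSet
  have hBm := hB.measurableSet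
  have hKm := hK.measurableSet
  have hfK : IntegrableOn f K := hf.continuousOn.integrableOn_compact hK
  have h1 : (∫ x in K, f x) - ∫ x in A, f x = ∫ x in K \ A, f x := by
    rw [setIntegral_sdiff hAm hfK hAK]
  rw [h1]
  have hfin : volume (K \ A) < ⊤ := lt_of_le_of_lt (measure_mono sdiff_subset) hK.measure_lt_top
  have h2 : ‖∫ x in K \ A, f x‖ ≤ M * volume.real (K \ A) := by
    refine norm_setIntegral_le_of_norm_le_const hfin ?_
    intro x hx
    exact hM x (hKB hx.1)
  have h3 : volume.real (K \ A) ≤ vol B - vol A := by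
    have h4 : volume.real (B \ A) = volume.real B - volume.real A :=
      measureReal_sdiff (hAK.trans hKB) hAm hB.measure_lt_top.ne
    have h5 : volume.real (K \ A) ≤ volume.real (B \ A) := by
      refine measureReal_mono (sdiff_subset_sdiff_left hKB) ?_
      exact (lt_of_le_of_lt (measure_mono sdiff_subset) hB.measure_lt_top).ne
    rw [h4] at h5
    exact h5
  rcases (K \ A).eq_empty_or_nonempty with he | ⟨x, hx⟩
  · rw [he]
    simp only [Measure.restrict_empty, integral_zero_measure, abs_zero]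
    rw [he] at h3
    simp only [measureReal_empty] at h3
    by_cases hBn : B.Nonempty
    · obtain ⟨x, hx⟩ := hBn
      have : 0 ≤ M := (abs_nonneg _).trans (hM x hx)
      positivity
    · rw [Set.not_nonempty_iff_eq_empty] at hBn
      subst hBn
      have : A = ∅ := subset_empty_iff.1 (hAK.trans hKB)
      subst this
      simp
  · have hM0 : 0 ≤ M := (abs_nonneg _).trans (hM x (hKB hx.1))
    rw [Real.norm_eq_abs] at h2
    exact h2.trans (mul_le_mul_of_nonneg_left h3 hM0)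

theorem vol_smul {L : Set (E n)} {s : ℝ} (hs : 0 ≤ s) :
    vol ((fun x => s • x) '' L) = s ^ n * vol L := by
  unfold vol
  rw [image_smul, Measure.addHaar_smul, ENNReal.toReal_mul]
  congr 1
  rw [ENNReal.toReal_ofReal (abs_nonneg _)]
  simp [abs_of_nonneg hs]

theorem smul_sub {L : Set (E n)} (hL : Convex ℝ L) (h0 : (0 : E n) ∈ L) {s : ℝ} (hs0 : 0 ≤ s)
    (hs1 : s ≤ 1) : (fun x => s • x) '' L ⊆ L := by
  rintro _ ⟨x, hx, rfl⟩
  exact hL.smul_mem_of_zero_mem h0 hx ⟨hs0, hs1⟩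

theorem sub_smul {L : Set (E n)} (hL : Convex ℝ L) (h0 : (0 : E n) ∈ L) {s : ℝ} (hs1 : 1 ≤ s) :
    L ⊆ (fun x => s • x) '' L := by
  intro x hx
  have hs : 0 < s := by linarith
  refine ⟨s⁻¹ • x, hL.smul_mem_of_zero_mem h0 hx ⟨by positivity, inv_le_one_of_one_le₀ hs1⟩, ?_⟩
  simp only [smul_smul, mul_inv_cancel₀ hs.ne', one_smul]

theorem cv_int {K : ℕ → Set (E n)} {L : Set (E n)} {R : ℝ} (hK : ∀ k, CB (K k)) (hL : CB L)
    (h0 : (0 : E n) ∈ L) (hLR : L ⊆ closedBall 0 R) (hc : Cv K L) {δ : ℝ} (hδ : 0 < δ) :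
    ∀ᶠ k in atTop, ∀ f : E n → ℝ, Continuous f → ∀ M : ℝ,
      (∀ x ∈ closedBall (0 : E n) (2 * R), |f x| ≤ M) →
        |(∫ x in K k, f x) - ∫ x in L, f x| ≤ δ * M := by
  have hcont : Tendsto (fun s : ℝ => 2 * (((1 + s) ^ n - (1 - s) ^ n) * vol L)) (𝓝 0) (𝓝 0) := by
    have : Continuous (fun s : ℝ => 2 * (((1 + s) ^ n - (1 - s) ^ n) * vol L)) := by fun_prop
    have h := this.tendsto 0
    simpa using h
  have hev : ∀ᶠ s : ℝ in 𝓝 0, 2 * (((1 + s) ^ n - (1 - s) ^ n) * vol L) < δ :=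
    hcont.eventually_lt_const hδ
  obtain ⟨e, he, hes⟩ := Metric.eventually_nhds_iff.1 hev
  set ε : ℝ := min (1 / 2) (e / 2) with hε
  have hε0 : 0 < ε := lt_min (by norm_num) (by positivity)
  have hε1 : ε < 1 := lt_of_le_of_lt (min_le_left _ _) (by norm_num)
  have hεe : ε < e := lt_of_le_of_lt (min_le_right _ _) (by linarith)
  have hvd : 2 * (((1 + ε) ^ n - (1 - ε) ^ n) * vol L) < δ := by
    apply hes
    rw [Real.dist_eq, sub_zero, abs_of_pos hε0]
    exact hεe
  obtain ⟨k0, hk0⟩ := hc ε hε0 hε1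
  filter_upwards [eventually_ge_atTop k0] with k hk
  intro f hf M hM
  obtain ⟨h1, h2⟩ := hk0 k hk
  set A : Set (E n) := (fun x => (1 - ε) • x) '' L with hA
  set B : Set (E n) := (fun x => (1 + ε) • x) '' L with hB
  have hAc : IsCompact A := hL.comp.image (by fun_prop)
  have hBc : IsCompact B := hL.comp.image (by fun_prop)
  have hBR : B ⊆ closedBall 0 (2 * R) := by
    rintro _ ⟨y, hy, rfl⟩
    have h3 := hLR hy
    rw [mem_closedBall_zero_iff] at h3 ⊢
    simp only [norm_smul, Real.norm_eq_abs]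
    rw [abs_of_pos (by linarith : (0 : ℝ) < 1 + ε)]
    have : 0 ≤ ‖y‖ := norm_nonneg y
    nlinarith
  have hMB : ∀ x ∈ B, |f x| ≤ M := fun x hx => hM x (hBR hx)
  have h3 := int_diff hAc hBc (hK k).comp h1 h2 hf hMB
  have h4 := int_diff hAc hBc hL.comp (smul_sub hL.conv h0 (by linarith) (by linarith))
    (sub_smul hL.conv h0 (by linarith)) hf hMB
  have h5 : vol B - vol A = ((1 + ε) ^ n - (1 - ε) ^ n) * vol L := by
    rw [hA, hB, vol_smul (by linarith), vol_smul (by linarith)]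
    ring
  rw [h5] at h3 h4
  have hM0 : 0 ≤ M := by
    have h6 : (0 : E n) ∈ B := ⟨0, h0, by simp⟩
    exact (abs_nonneg _).trans (hMB 0 h6)
  rw [abs_le] at h3 h4 ⊢
  constructor <;> nlinarith

theorem vol_eq_int (K : Set (E n)) : vol K = ∫ _ in K, (1 : ℝ) := by
  unfold vol
  simp [Measure.real]

theorem cv_vol {K : ℕ → Set (E n)} {L : Set (E n)} {R : ℝ} (hK : ∀ k, CB (K k)) (hL : CB L)
    (h0 : (0 : E n) ∈ L) (hLR : L ⊆ closedBall 0 R) (hc : Cv K L) :
    Tendsto (fun k => vol (K k)) atTop (𝓝 (vol L)) := by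
  rw [Metric.tendsto_nhds]
  intro δ hδ
  filter_upwards [cv_int hK hL h0 hLR hc (half_pos hδ)] with k hk
  have h1 := hk (fun _ => 1) continuous_const 1 (by intro _ _; simp)
  rw [← vol_eq_int, ← vol_eq_int] at h1
  rw [Real.dist_eq]
  linarith

theorem cv_tendsto {K : ℕ → Set (E n)} {L : Set (E n)} {R : ℝ} (hK : ∀ k, CB (K k)) (hL : CB L)
    (h0 : (0 : E n) ∈ L) (hLR : L ⊆ closedBall 0 R) (hc : Cv K L) {f : E n → ℝ}
    (hf : Continuous f) : Tendsto (fun k => ∫ x in K k, f x) atTop (𝓝 (∫ x in L, f x)) := by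
  have hR : 0 ≤ R := by
    have := hLR h0
    rw [mem_closedBall_zero_iff, norm_zero] at this
    exact this
  obtain ⟨M, hM⟩ := (isCompact_closedBall (0 : E n) (2 * R)).exists_bound_of_continuousOn
    hf.continuousOn
  have hM0 : 0 ≤ M := (norm_nonneg _).trans (hM 0 (by simp [hR]))
  rw [Metric.tendsto_nhds]
  intro δ hδ
  have hδ' : 0 < δ / (M + 1) := by positivity
  filter_upwards [cv_int hK hL h0 hLR hc hδ'] with k hk
  have h1 := hk f hf M hM
  rw [Real.dist_eq]
  refine lt_of_le_of_lt h1 ?_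
  rw [div_mul_eq_mul_div, div_lt_iff₀ (by positivity)]
  nlinarith

/-! ## Levels -/

theorem lev_bd {K : Set (E n)} {R d : ℝ} (hKR : K ⊆ closedBall 0 R) (hd : 0 < d)
    (hdK : ENNReal.ofReal d < volume K) {u : E n} (hu : ‖u‖ = 1) {τ : ℝ}
    (h : volume (cap K u τ) = ENNReal.ofReal d) : |τ| ≤ R := by
  by_contra hcon
  push Not at hcon
  have hin : ∀ x ∈ K, |(inner ℝ u x : ℝ)| ≤ R := by
    intro x hx
    have h1 := hKR hx
    rw [mem_closedBall_zero_iff] at h1
    refine (abs_real_inner_le_norm u x).trans ?_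
    rw [hu, one_mul]
    exact h1
  rcases lt_abs.1 hcon with h1 | h1
  · have : cap K u τ = ∅ := by
      ext x
      simp only [mem_empty_iff_false, iff_false]
      rintro ⟨hx, hx2⟩
      have := (abs_le.1 (hin x hx)).2
      rw [mem_ofPred_eq] at hx2
      linarith
    rw [this, measure_empty] at h
    have := ENNReal.ofReal_pos.2 hd
    rw [← h] at this
    exact lt_irrefl _ this
  · have : cap K u τ = K := by
      ext x
      constructor
      · rintro ⟨hx, _⟩; exact hx
      · intro hx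
        refine ⟨hx, ?_⟩
        have := (abs_le.1 (hin x hx)).1
        rw [mem_ofPred_eq]
        linarith
    rw [this] at h
    rw [h] at hdK
    exact lt_irrefl _ hdK

theorem GG_nonneg (K : Set (E n)) (u : E n) (τ : ℝ) : 0 ≤ GG K u τ :=
  integral_nonneg (fun _ => le_max_right _ _)

theorem GG_pos {K : Set (E n)} (hK : IsCompact K) {u : E n} (hu : u ≠ 0) {τ d : ℝ} (hd : 0 < d)
    (h : volume (cap K u τ) = ENNReal.ofReal d) : 0 < GG K u τ := by
  have hcont : Continuous (fun x : E n => max ((inner ℝ u x : ℝ) - τ) 0) := by fun_prop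
  unfold GG
  rw [setIntegral_pos_iff_support_of_nonneg_ae]
  · have h1 : cap K u τ ⊆ (Function.support (fun x : E n => max ((inner ℝ u x : ℝ) - τ) 0) ∩ K) ∪
        {x : E n | inner ℝ u x = τ} := by
      rintro x ⟨hx, hx2⟩
      rw [mem_ofPred_eq] at hx2
      rcases hx2.eq_or_lt with h3 | h3
      · right; exact h3.symm
      · left
        refine ⟨?_, hx⟩
        rw [Function.mem_support]
        have : 0 < max ((inner ℝ u x : ℝ) - τ) 0 := lt_max_of_lt_left (by linarith)
        exact this.ne'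
    by_contra hcon
    have h2 : volume (Function.support (fun x : E n => max ((inner ℝ u x : ℝ) - τ) 0) ∩ K) = 0 := by
      simpa using hcon
    have h3 : volume (cap K u τ) ≤ 0 := by
      refine (measure_mono h1).trans ((measure_union_le _ _).trans ?_)
      rw [h2, Pool.Agent.Helper51.HV.hyper_null hu τ]
      simp
    rw [h] at h3
    have := ENNReal.ofReal_pos.2 hd
    exact absurd this (not_lt.2 h3)
  · exact Filter.Eventually.of_forall (fun _ => le_max_right _ _)
  · exact hcont.continuousOn.integrableOn_compact hK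

/-- The minima for `u` and `-u` have a positive sum. -/
theorem sum_pos {K : Set (E n)} (hK : IsCompact K) {u : E n} (hu : u ≠ 0) {τ τ' d : ℝ} (hd : 0 < d)
    (hdV : d < vol K) (h : volume (cap K u τ) = ENNReal.ofReal d) :
    0 < (GG K u τ + d * τ) + (GG K (-u) τ' + d * τ') := by
  have h1 := GG_pos hK hu hd h
  have h2 := GG_nonneg K (-u) τ'
  by_cases hs : 0 ≤ τ + τ'
  · nlinarith
  · push Not at hs
    have h3 : -(τ + τ') * vol K ≤ GG K u τ + GG K (-u) τ' := by
      unfold GG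
      rw [← integral_add, vol_eq_int, ← integral_const_mul]
      · refine setIntegral_mono_on ?_ ?_ hK.measurableSet ?_
        · exact (continuous_const.continuousOn.integrableOn_compact hK)
        · have hc : Continuous (fun x : E n => max ((inner ℝ u x : ℝ) - τ) 0 +
            max ((inner ℝ (-u) x : ℝ) - τ') 0) := by fun_prop
          exact hc.continuousOn.integrableOn_compact hK
        · intro x _
          have h4 := le_max_left ((inner ℝ u x : ℝ) - τ) 0
          have h5 := le_max_left ((inner ℝ (-u) x : ℝ) - τ') 0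
          rw [inner_neg_left] at h5 ⊢
          linarith
      · have hc : Continuous (fun x : E n => max ((inner ℝ u x : ℝ) - τ) 0) := by fun_prop
        exact hc.continuousOn.integrableOn_compact hK
      · have hc : Continuous (fun x : E n => max ((inner ℝ (-u) x : ℝ) - τ') 0) := by fun_prop
        exact hc.continuousOn.integrableOn_compact hK
    nlinarith


/-! ## The limit -/

theorem vol_pos {K : Set (E n)} (hK : CB K) : 0 < vol K := by
  unfold vol
  refine ENNReal.toReal_pos ?_ hK.comp.measure_lt_top.ne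
  have h1 : 0 < volume (interior K) := isOpen_interior.measure_pos volume hK.int
  exact (h1.trans_le (measure_mono interior_subset)).ne'

theorem ofReal_lt {K : Set (E n)} (hK : CB K) {θ : ℝ} (h : θ < 1) :
    ENNReal.ofReal (θ * vol K) < volume K := by
  have h1 : ENNReal.ofReal (vol K) = volume K := ENNReal.ofReal_toReal hK.comp.measure_lt_top.ne
  have h2 := vol_pos hK
  calc ENNReal.ofReal (θ * vol K) < ENNReal.ofReal (vol K) := by
        rw [ENNReal.ofReal_lt_ofReal_iff h2]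
        nlinarith
    _ = volume K := h1

theorem min_tendsto (hLev : S_level) {K : ℕ → Set (E n)} {L : Set (E n)} {R : ℝ} {θ : ℕ → ℝ}
    {θ0 : ℝ} (h0 : 0 < θ0) (h1 : θ0 < 1) (hθ : ∀ k, 0 < θ k ∧ θ k < 1)
    (hθt : Tendsto θ atTop (𝓝 θ0)) (hK : ∀ k, CB (K k)) (hKR : ∀ k, K k ⊆ closedBall 0 R)
    (hL : CB L) (hL0 : (0 : E n) ∈ L) (hLR : L ⊆ closedBall 0 R) (hc : Cv K L) {u : E n}
    (hu : ‖u‖ = 1) {τ : ℕ → ℝ}
    (hτ : ∀ k, volume (cap (K k) u (τ k)) = ENNReal.ofReal (θ k * vol (K k))) {σ : ℝ}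
    (hσ : volume (cap L u σ) = ENNReal.ofReal (θ0 * vol L)) :
    Tendsto (fun k => GG (K k) u (τ k) + θ k * vol (K k) * τ k) atTop
      (𝓝 (GG L u σ + θ0 * vol L * σ)) := by
  have hR : 0 ≤ R := by
    have := hLR hL0
    rw [mem_closedBall_zero_iff, norm_zero] at this
    exact this
  have hu0 : u ≠ 0 := by
    intro h
    rw [h, norm_zero] at hu
    exact zero_ne_one hu
  have hd : Tendsto (fun k => θ k * vol (K k)) atTop (𝓝 (θ0 * vol L)) :=
    hθt.mul (cv_vol hK hL hL0 hLR hc)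
  have hσR : |σ| ≤ R := lev_bd hLR (mul_pos h0 (vol_pos hL)) (ofReal_lt hL h1) hu hσ
  rw [Metric.tendsto_nhds]
  intro δ hδ
  have hδ' : 0 < δ / (4 * R + 1) := by positivity
  set δ' := δ / (4 * R + 1) with hδ'_def
  have hδR : δ' * (4 * R) < δ := by
    rw [hδ'_def, div_mul_eq_mul_div, div_lt_iff₀ (by positivity)]
    nlinarith
  filter_upwards [cv_int hK hL hL0 hLR hc hδ', (Metric.tendsto_nhds.1 hd) δ' hδ'] with k hk1 hk2
  rw [Real.dist_eq] at hk2
  have hτR : |τ k| ≤ R := lev_bd (hKR k) (mul_pos (hθ k).1 (vol_pos (hK k)))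
    (ofReal_lt (hK k) (hθ k).2) hu (hτ k)
  have hcl : ∀ t : ℝ, |t| ≤ R → |(GG (K k) u t + θ k * vol (K k) * t) -
      (GG L u t + θ0 * vol L * t)| ≤ δ' * (4 * R) := by
    intro t ht
    have h2 : |GG (K k) u t - GG L u t| ≤ δ' * (3 * R) := by
      unfold GG
      refine hk1 (fun x => max ((inner ℝ u x : ℝ) - t) 0) (by fun_prop) (3 * R) ?_
      intro x hx
      rw [mem_closedBall_zero_iff] at hx
      have h3 : |(inner ℝ u x : ℝ)| ≤ 2 * R := by
        refine (abs_real_inner_le_norm u x).trans ?_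
        rw [hu, one_mul]
        exact hx
      rw [abs_of_nonneg (le_max_right _ _)]
      refine max_le ?_ (by linarith)
      have := (abs_le.1 h3).2
      have := (abs_le.1 ht).1
      linarith
    have h4 : |θ k * vol (K k) * t - θ0 * vol L * t| ≤ δ' * R := by
      rw [← sub_mul, abs_mul]
      exact mul_le_mul hk2.le ht (abs_nonneg _) hδ'.le
    have h5 : (GG (K k) u t + θ k * vol (K k) * t) - (GG L u t + θ0 * vol L * t) =
        (GG (K k) u t - GG L u t) + (θ k * vol (K k) * t - θ0 * vol L * t) := by ring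
    rw [h5]
    refine (abs_add_le _ _).trans ?_
    linarith
  have h6 := (hLev hL (mul_pos h0 (vol_pos hL)) (ofReal_lt hL h1) hu0).2 σ (τ k) hσ
  have h7 := (hLev (hK k) (mul_pos (hθ k).1 (vol_pos (hK k))) (ofReal_lt (hK k) (hθ k).2) hu0).2
    (τ k) σ (hτ k)
  have h8 := abs_le.1 (hcl (τ k) hτR)
  have h9 := abs_le.1 (hcl σ hσR)
  rw [Real.dist_eq, abs_lt]
  constructor
  · linarith [h8.1, h8.2]
  · linarith [h9.1, h9.2]

theorem sol_limit (hLev : S_level) {K : ℕ → Set (E n)} {L : Set (E n)} {R r : ℝ} {θ : ℕ → ℝ}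
    {θ0 : ℝ} (hn : 1 ≤ n) (h0 : 0 < θ0) (h1 : θ0 < 1) (hθ : ∀ k, 0 < θ k ∧ θ k < 1)
    (hθt : Tendsto θ atTop (𝓝 θ0)) (hK : ∀ k, CB (K k)) (hKR : ∀ k, K k ⊆ closedBall 0 R)
    (hL : CB L) (hr : 0 < r) (hrL : closedBall 0 r ⊆ L) (hLR : L ⊆ closedBall 0 R) (hc : Cv K L)
    (hS : ∀ k, Sol (K k) (θ k * vol (K k))) : Sol L (θ0 * vol L) := by
  have hL0 : (0 : E n) ∈ L := hrL (by simp [hr.le])
  have hd : Tendsto (fun k => θ k * vol (K k)) atTop (𝓝 (θ0 * vol L)) :=
    hθt.mul (cv_vol hK hL hL0 hLR hc)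
  have hdL : 0 < θ0 * vol L := mul_pos h0 (vol_pos hL)
  choose c b hcp hcb using hS
  have hu0 : ∀ {u : E n}, ‖u‖ = 1 → u ≠ 0 := by
    intro u hu h
    rw [h, norm_zero] at hu
    exact zero_ne_one hu
  -- the levels of the limit
  have hlev : ∀ u : E n, ∃ σ : ℝ, ‖u‖ = 1 → volume (cap L u σ) = ENNReal.ofReal (θ0 * vol L) := by
    intro u
    by_cases hu : ‖u‖ = 1
    · obtain ⟨σ, hσ⟩ := (hLev hL hdL (ofReal_lt hL h1) (hu0 hu)).1
      exact ⟨σ, fun _ => hσ⟩
    · exact ⟨0, fun h => absurd h hu⟩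
  choose σ hσ using hlev
  set g : E n → ℝ := fun u => (GG L u (σ u) + θ0 * vol L * σ u) / (θ0 * vol L) with hg
  have hgt : ∀ u : E n, ‖u‖ = 1 →
      Tendsto (fun k => c k * supp (K k) u + inner ℝ (b k) u) atTop (𝓝 (g u)) := by
    intro u hu
    have h2 : ∀ k, ∃ τ : ℝ, volume (cap (K k) u τ) = ENNReal.ofReal (θ k * vol (K k)) ∧
        GG (K k) u τ + θ k * vol (K k) * τ =
          θ k * vol (K k) * (c k * supp (K k) u + inner ℝ (b k) u) := fun k => hcb k u hu
    choose τ hτ1 hτ2 using h2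
    have h3 := min_tendsto hLev h0 h1 hθ hθt hK hKR hL hL0 hLR hc hu hτ1 (hσ u hu)
    have h4 := h3.div hd hdL.ne'
    refine h4.congr ?_
    intro k
    have h5 : 0 < θ k * vol (K k) := mul_pos (hθ k).1 (vol_pos (hK k))
    simp only [Pi.div_apply]
    rw [hτ2 k]
    exact mul_div_cancel_left₀ _ h5.ne'
  -- a unit vector
  set e : E n := EuclideanSpace.single (⟨0, hn⟩ : Fin n) (1 : ℝ) with he
  have hen : ‖e‖ = 1 := by simp [he]
  have hen' : ‖-e‖ = 1 := by rw [norm_neg, hen]
  have hsr : ∀ u : E n, ‖u‖ = 1 → r ≤ supp L u := by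
    intro u hu
    have h2 : r • u ∈ L := by
      apply hrL
      rw [mem_closedBall_zero_iff, norm_smul, hu, mul_one, Real.norm_eq_abs, abs_of_pos hr]
    have h3 := le_supp hL.comp u h2
    rw [inner_smul_right, real_inner_self_eq_norm_sq, hu] at h3
    linarith
  have hsp : 0 < supp L e + supp L (-e) := by linarith [hsr e hen, hsr (-e) hen']
  set c0 : ℝ := (g e + g (-e)) / (supp L e + supp L (-e)) with hc0
  have hc0p : 0 < c0 := by
    refine div_pos ?_ hsp
    have hdV : θ0 * vol L < vol L := by nlinarith [vol_pos hL]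
    have h2 := sum_pos hL.comp (hu0 hen) (τ' := σ (-e)) hdL hdV (hσ e hen)
    rw [hg]
    simp only
    rw [← add_div]
    exact div_pos h2 hdL
  have hst : ∀ u : E n, Tendsto (fun k => supp (K k) u) atTop (𝓝 (supp L u)) :=
    fun u => cv_supp hK hL hL0 hc u
  have hct : Tendsto c atTop (𝓝 c0) := by
    have h2 := ((hgt e hen).add (hgt (-e) hen')).div ((hst e).add (hst (-e))) hsp.ne'
    refine h2.congr' ?_
    have h3 : ∀ᶠ k in atTop, 0 < supp (K k) e + supp (K k) (-e) :=
      ((hst e).add (hst (-e))).eventually_const_lt hsp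
    filter_upwards [h3] with k hk
    simp only [Pi.div_apply, inner_neg_right]
    rw [div_eq_iff hk.ne']
    ring
  have hbt : ∀ u : E n, ‖u‖ = 1 →
      Tendsto (fun k => inner ℝ (b k) u) atTop (𝓝 (g u - c0 * supp L u)) := by
    intro u hu
    have h2 := (hgt u hu).sub (hct.mul (hst u))
    refine h2.congr ?_
    intro k
    ring
  set b0 : E n := WithLp.toLp 2 (fun i => g (EuclideanSpace.single i (1 : ℝ)) -
    c0 * supp L (EuclideanSpace.single i (1 : ℝ))) with hb0
  have hb0t : ∀ u : E n, Tendsto (fun k => inner ℝ (b k) u) atTop (𝓝 (inner ℝ b0 u)) := by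
    intro u
    simp only [PiLp.inner_apply]
    refine tendsto_finsetSum _ ?_
    intro i _
    have h2 := hbt (EuclideanSpace.single i (1 : ℝ)) (by simp)
    simp only [EuclideanSpace.inner_single_right] at h2
    simp only [RCLike.inner_apply, conj_trivial, one_mul] at h2 ⊢
    exact h2.const_mul (u i)
  refine ⟨c0, b0, hc0p, fun u hu => ⟨σ u, hσ u hu, ?_⟩⟩
  have h2 : g u - c0 * supp L u = inner ℝ b0 u := tendsto_nhds_unique (hbt u hu) (hb0t u)
  have h3 : GG L u (σ u) + θ0 * vol L * σ u = θ0 * vol L * g u := by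
    simp only [hg]
    rw [mul_div_assoc']
    exact (mul_div_cancel_left₀ _ hdL.ne').symm
  rw [h3]
  congr 1
  linarith

/-- (CPT) -/
theorem compact (hB : S_blaschke) (hN : S_nrm_bounds) (hE : S_ell_nrm) (hLev : S_level) :
    S_compact := by
  intro n hn θ0 h0 h1 hall ε hε
  by_contra hcon
  push Not at hcon
  obtain ⟨r, R, hr, hR, hbd⟩ := hN n hn
  set η0 : ℝ := min θ0 (1 - θ0) with hη0
  have hη0p : 0 < η0 := lt_min h0 (by linarith)
  have hpos : ∀ k : ℕ, 0 < η0 / ((k : ℝ) + 1) := fun k => by positivity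
  choose K θ hKc hKn hKθ hKS hKN using fun k : ℕ => hcon (η0 / ((k : ℝ) + 1)) (hpos k)
  obtain ⟨L, φ, hLc, hrL, hLR, hφ, hcv⟩ := hB n hn hr hR K
    (fun k => ⟨hKc k, hbd _ (hKc k) (hKn k)⟩)
  have hL0 : (0 : E n) ∈ L := hrL (by simp [hr.le])
  have hc : Cv (fun k => K (φ k)) L := hcv
  have hθ : ∀ k, 0 < θ k ∧ θ k < 1 := by
    intro k
    have h2 := hKθ k
    have h3 : η0 / ((k : ℝ) + 1) ≤ η0 := by
      apply div_le_self hη0p.le
      have : (0 : ℝ) ≤ k := Nat.cast_nonneg k
      linarith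
    have h4 : η0 ≤ θ0 := min_le_left _ _
    have h5 : η0 ≤ 1 - θ0 := min_le_right _ _
    rw [abs_lt] at h2
    constructor <;> linarith [h2.1, h2.2]
  have hθt0 : Tendsto θ atTop (𝓝 θ0) := by
    have h2 : Tendsto (fun k : ℕ => η0 / ((k : ℝ) + 1)) atTop (𝓝 0) := by
      have h5 := (tendsto_one_div_add_atTop_nhds_zero_nat (𝕜 := ℝ)).const_mul η0
      simp only [mul_zero] at h5
      refine h5.congr ?_
      intro k
      ring
    have h3 : Tendsto (fun k => θ k - θ0) atTop (𝓝 0) :=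
      squeeze_zero_norm (fun k => (hKθ k).le) h2
    have h4 := h3.add_const θ0
    simpa using h4
  have hθt : Tendsto (fun k => θ (φ k)) atTop (𝓝 θ0) := hθt0.comp hφ.tendsto_atTop
  have hSol := sol_limit hLev hn h0 h1 (fun k => hθ (φ k)) hθt (fun k => hKc (φ k))
    (fun k => (hbd _ (hKc (φ k)) (hKn (φ k))).2) hLc hr hrL hLR hc (fun k => hKS (φ k))
  have hNrm : Nrm L := by
    constructor
    · intro u
      have h2 := cv_tendsto (fun k => hKc (φ k)) hLc hL0 hLR hc
        (f := fun x => (inner ℝ u x : ℝ)) (by fun_prop)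
      have h3 : ∀ k, ∫ x in K (φ k), (inner ℝ u x : ℝ) = 0 := fun k => (hKn (φ k)).cent u
      simp only [h3] at h2
      exact tendsto_nhds_unique h2 tendsto_const_nhds
    · intro u
      have h2 := cv_tendsto (fun k => hKc (φ k)) hLc hL0 hLR hc
        (f := fun x => (inner ℝ u x : ℝ) ^ 2) (by fun_prop)
      have h3 : ∀ k, ∫ x in K (φ k), (inner ℝ u x : ℝ) ^ 2 = ∫ x in BB n, (inner ℝ u x : ℝ) ^ 2 :=
        fun k => (hKn (φ k)).iner u
      simp only [h3] at h2
      exact tendsto_nhds_unique h2 tendsto_const_nhds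
  have hLB : L = BB n := hE (hall L hLc hSol) hNrm
  subst hLB
  set ε' : ℝ := min ε (1 / 2) with hε'
  have hε'0 : 0 < ε' := lt_min hε (by norm_num)
  have hε'1 : ε' < 1 := lt_of_le_of_lt (min_le_right _ _) (by norm_num)
  obtain ⟨k0, hk0⟩ := hcv ε' hε'0 hε'1
  obtain ⟨h2, h3⟩ := hk0 k0 le_rfl
  apply hKN (φ k0)
  have hεε : ε' ≤ ε := min_le_left _ _
  have him : ∀ s : ℝ, 0 < s → (fun x : E n => s • x) '' BB n = closedBall 0 s := by
    intro s hs
    rw [image_smul, smul_closedBall' hs.ne' (0 : E n) 1, smul_zero, Real.norm_of_nonneg hs.le,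
      mul_one]
  rw [him _ (by linarith)] at h2 h3
  exact ⟨(closedBall_subset_closedBall (by linarith)).trans h2,
    h3.trans (closedBall_subset_closedBall (by linarith))⟩

end Pool.Agent.Helper23.LR
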